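import Pool.Agent.HUK.StmtsA

/-!
# Squad HUK, row EXA: from windows to segments, all algebraic numbers
-/

set_option autoImplicit false

namespace Pool.Agent.HUK.H37

open Polynomial Pool.Agent.MTN Pool.Agent.HUK

/-- the coefficients of a translate -/
theorem coeff_shift (p : ℤ[X]) (m : ℕ) (hm : p.natDegree ≤ m) (r : ℤ) (i : ℕ) :
    (p.comp (X + C r)).coeff i =
      ∑ j ∈ Finset.range (m + 1), p.coeff j * (r ^ (j - i) * (j.choose i : ℤ)) := by
  have h1 : p.comp (X + C r) = ∑ j ∈ Finset.range (m + 1), C (p.coeff j) * (X + C r) ^ j := by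
    conv_lhs => rw [p.as_sum_range_C_mul_X_pow' (Nat.lt_succ_of_le hm)]
    rw [comp, eval₂_finsetSum]
    refine Finset.sum_congr rfl fun j _ => ?_
    rw [eval₂_mul, eval₂_C, eval₂_X_pow]
  rw [h1, Polynomial.finsetSum_coeff]
  refine Finset.sum_congr rfl fun j _ => ?_
  rw [coeff_C_mul, coeff_X_add_C_pow]

/-- the bound for the coefficients of a translate -/
theorem coeff_shift_le (p : ℤ[X]) (m B : ℕ) (hm : p.natDegree ≤ m) (hB : ∀ i, |p.coeff i| ≤ (B : ℤ))
    (N κ : ℕ) (hκ : κ < N) (i : ℕ) :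
    |(p.comp (X + C (-(κ : ℤ)))).coeff i| ≤ (((m + 1) * 2 ^ m * (B * N ^ m) : ℕ) : ℤ) := by
  rw [coeff_shift p m hm]
  have hterm : ∀ j ∈ Finset.range (m + 1),
      |p.coeff j * ((-(κ : ℤ)) ^ (j - i) * (j.choose i : ℤ))| ≤ ((2 ^ m * (B * N ^ m) : ℕ) : ℤ) := by
    intro j hj
    have hjm : j ≤ m := Nat.lt_succ_iff.1 (Finset.mem_range.1 hj)
    rw [abs_mul, abs_mul, abs_pow, abs_neg, Nat.abs_cast, Nat.abs_cast]
    have e1 : κ ^ (j - i) ≤ N ^ m :=
      (Nat.pow_le_pow_left hκ.le _).trans (Nat.pow_le_pow_right (by omega) (by omega))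
    have e2 : j.choose i ≤ 2 ^ m :=
      (Nat.choose_le_two_pow j i).trans (Nat.pow_le_pow_right (by norm_num) hjm)
    have e3 : κ ^ (j - i) * j.choose i ≤ N ^ m * 2 ^ m := Nat.mul_le_mul e1 e2
    have e4 : ((κ : ℤ)) ^ (j - i) * (j.choose i : ℤ) ≤ ((N ^ m * 2 ^ m : ℕ) : ℤ) := by
      exact_mod_cast e3
    calc |p.coeff j| * ((κ : ℤ) ^ (j - i) * (j.choose i : ℤ))
        ≤ (B : ℤ) * ((N ^ m * 2 ^ m : ℕ) : ℤ) :=
          mul_le_mul (hB j) e4 (by positivity) (by positivity)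
      _ = ((2 ^ m * (B * N ^ m) : ℕ) : ℤ) := by push_cast; ring
  refine (Finset.abs_sum_le_sum_abs _ _).trans ?_
  refine (Finset.sum_le_card_nsmul _ _ _ hterm).trans (le_of_eq ?_)
  rw [Finset.card_range, nsmul_eq_mul]
  push_cast
  ring

/-- the points of a segment far from zero -/
theorem shift_mem_Pts {x : ℂ} {m A N : ℕ} (hx : x ∈ Ap ℂ m (N ^ A)) (hN : (m + 1) * 2 ^ m ≤ N)
    {κ : ℕ} (hκ : κ < N) (hw : (N : ℝ) ≤ ‖x + κ‖ ^ 2) : x + κ ∈ Pts m (2 * (m + A + 1)) := by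
  obtain ⟨p, hp0, hpm, hpB, hpx⟩ := hx
  refine ⟨p.comp (X + C (-(κ : ℤ))), ?_, ?_, ?_, ?_⟩
  · intro h
    rw [Polynomial.comp_eq_zero_iff] at h
    rcases h with h | ⟨_, h⟩
    · exact hp0 h
    · have h1 : (X + C (-(κ : ℤ)) : ℤ[X]).natDegree = 0 := by
        rw [h]
        exact natDegree_C _
      rw [natDegree_X_add_C] at h1
      exact one_ne_zero h1
  · rw [natDegree_comp, natDegree_X_add_C, mul_one]
    exact hpm
  · intro i
    have h1 := coeff_shift_le p m (N ^ A) hpm (by exact_mod_cast hpB) N κ hκ i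
    have h2 : (|((p.comp (X + C (-(κ : ℤ)))).coeff i : ℝ)|) ≤
        (((m + 1) * 2 ^ m * (N ^ A * N ^ m) : ℕ) : ℝ) := by
      exact_mod_cast h1
    refine h2.trans ?_
    have h3 : (m + 1) * 2 ^ m * (N ^ A * N ^ m) ≤ N ^ (m + A + 1) := by
      calc (m + 1) * 2 ^ m * (N ^ A * N ^ m) ≤ N * (N ^ A * N ^ m) := Nat.mul_le_mul_right _ hN
        _ = N ^ (m + A + 1) := by ring
    calc (((m + 1) * 2 ^ m * (N ^ A * N ^ m) : ℕ) : ℝ) ≤ ((N ^ (m + A + 1) : ℕ) : ℝ) := by
          exact_mod_cast h3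
      _ = (N : ℝ) ^ (m + A + 1) := by push_cast; ring
      _ ≤ (‖x + κ‖ ^ 2) ^ (m + A + 1) := pow_le_pow_left₀ (by positivity) hw _
      _ = ‖x + κ‖ ^ (2 * (m + A + 1)) := by rw [← pow_mul]
  · rw [aeval_comp]
    simp only [map_add, aeval_X, map_neg, map_natCast]
    rw [add_neg_cancel_right]
    exact hpx

/-- few points of a segment are near zero -/
theorem card_near (x : ℂ) (h : ℝ) (hh : 0 ≤ h) (T : Finset ℕ)
    (hT : ∀ κ ∈ T, ‖x + κ‖ < h) : (T.card : ℝ) ≤ 2 * h + 1 := by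
  have h1 : ∀ κ ∈ T, -h - x.re < κ ∧ (κ : ℝ) < h - x.re := by
    intro κ hκ
    have e1 := (Complex.abs_re_le_norm (x + κ)).trans_lt (hT κ hκ)
    rw [Complex.add_re, Complex.natCast_re, abs_lt] at e1
    constructor <;> linarith [e1.1, e1.2]
  rcases T.eq_empty_or_nonempty with h0 | h0
  · rw [h0, Finset.card_empty]
    push_cast
    linarith
  · have h2 : T ⊆ Finset.Icc (T.min' h0) (T.max' h0) := fun κ hκ =>
      Finset.mem_Icc.2 ⟨T.min'_le κ hκ, T.le_max' κ hκ⟩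
    have h3 := Finset.card_le_card h2
    rw [Nat.card_Icc] at h3
    have h4 : T.card + T.min' h0 ≤ T.max' h0 + 1 := by
      have := T.min'_le_max' h0
      omega
    have h5 := (h1 _ (T.min'_mem h0)).1
    have h6 := (h1 _ (T.max'_mem h0)).2
    have h7 : (T.card : ℝ) + (T.min' h0 : ℕ) ≤ (T.max' h0 : ℕ) + 1 := by exact_mod_cast h4
    linarith

/-- the blocks -/
theorem card_blocks (x : ℂ) (S : Set ℂ) (C K N : ℕ) (hK : 0 < K) (T : Finset ℕ)
    (hN : ∀ κ ∈ T, κ < N) (hS : ∀ κ ∈ T, x + κ ∈ S)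
    (hwin : ∀ κ ∈ T, Nat.card {κ' : ℕ // κ' < K ∧ x + κ - κ' ∈ S} ≤ C) :
    T.card ≤ C * (N / K + 1) := by
  classical
  have h1 : ∀ j ∈ Finset.range (N / K + 1), (T.filter (fun κ => κ / K = j)).card ≤ C := by
    intro j _
    rcases (T.filter (fun κ => κ / K = j)).eq_empty_or_nonempty with h0 | h0
    · rw [h0, Finset.card_empty]
      exact Nat.zero_le _
    · set M := (T.filter (fun κ => κ / K = j)).max' h0 with hM
      have hMm := (T.filter (fun κ => κ / K = j)).max'_mem h0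
      rw [← hM, Finset.mem_filter] at hMm
      refine le_trans ?_ (hwin M hMm.1)
      have hfin : Finite {κ' : ℕ // κ' < K ∧ x + M - κ' ∈ S} :=
        Set.Finite.to_subtype ((Set.finite_Iio K).subset fun κ' h => h.1)
      have : Fintype {κ' : ℕ // κ' < K ∧ x + M - κ' ∈ S} := Fintype.ofFinite _
      rw [Nat.card_eq_fintype_card, ← Finset.card_univ]
      have key : ∀ κ ∈ T.filter (fun κ => κ / K = j), M - κ < K ∧ κ ≤ M ∧
          x + (M : ℂ) - ((M - κ : ℕ) : ℂ) ∈ S := by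
        intro κ hκ
        have h2 := Finset.le_max' _ κ hκ
        rw [← hM] at h2
        rw [Finset.mem_filter] at hκ
        have h3 := Nat.div_add_mod M K
        have h4 := Nat.div_add_mod κ K
        have h5 := Nat.mod_lt M hK
        rw [hMm.2] at h3
        rw [hκ.2] at h4
        refine ⟨by omega, h2, ?_⟩
        rw [Nat.cast_sub h2, add_sub_assoc, sub_sub_cancel]
        exact hS κ hκ.1
      refine Finset.card_le_card_of_injOn
        (fun κ => if h : M - κ < K ∧ x + (M : ℂ) - ((M - κ : ℕ) : ℂ) ∈ S then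
          (⟨M - κ, h⟩ : {κ' : ℕ // κ' < K ∧ x + M - κ' ∈ S}) else
          ⟨0, hK, by simpa using hS M hMm.1⟩) (fun _ _ => Finset.mem_coe.2 (Finset.mem_univ _)) ?_
      intro κ hκ κ' hκ' h
      obtain ⟨a1, a2, a3⟩ := key κ (Finset.mem_coe.1 hκ)
      obtain ⟨b1, b2, b3⟩ := key κ' (Finset.mem_coe.1 hκ')
      simp only [dif_pos (⟨a1, a3⟩ : M - κ < K ∧ x + (M : ℂ) - ((M - κ : ℕ) : ℂ) ∈ S),
        dif_pos (⟨b1, b3⟩ : M - κ' < K ∧ x + (M : ℂ) - ((M - κ' : ℕ) : ℂ) ∈ S),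
        Subtype.mk.injEq] at h
      omega
  have h2 : T.card = ∑ j ∈ Finset.range (N / K + 1), (T.filter (fun κ => κ / K = j)).card := by
    apply Finset.card_eq_sum_card_fiberwise
    intro κ hκ
    rw [Finset.mem_coe, Finset.mem_range]
    exact Nat.lt_succ_of_le (Nat.div_le_div_right (hN κ (Finset.mem_coe.1 hκ)).le)
  rw [h2]
  refine (Finset.sum_le_card_nsmul _ _ _ h1).trans (le_of_eq ?_)
  rw [Finset.card_range, smul_eq_mul, mul_comm]

/-- EXA -/
theorem exa : ExaStmt := by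
  intro C α S hC hwin m A
  classical
  set A' := 2 * (m + A + 1) with hA'
  set a := α m A' + 1 with ha
  set X1 := (m + 1) * 2 ^ m with hX1
  refine ⟨3 + 4 * C * C + 3 * C + X1, 1 / (2 * (a : ℝ)), by positivity, ?_⟩
  intro N hN x hx
  have hNr : (1 : ℝ) ≤ N := by exact_mod_cast hN
  have hN0 : (0 : ℝ) < N := by linarith only [hNr]
  have hCr : (1 : ℝ) ≤ C := by exact_mod_cast hC
  have ha1 : (1 : ℝ) ≤ a := by
    have : 1 ≤ a := by omega
    exact_mod_cast this
  set r : ℝ := (N : ℝ) ^ (1 / (2 * (a : ℝ))) with hr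
  have hr1 : 1 ≤ r := Real.one_le_rpow hNr (by positivity)
  have hr0 : 0 < r := by linarith only [hr1]
  have hexp : (N : ℝ) ^ (1 - 1 / (2 * (a : ℝ))) = N / r := by
    rw [Real.rpow_sub hN0, Real.rpow_one]
  rw [hexp]
  set h : ℝ := Real.sqrt N with hh
  have hhh : h * h = N := Real.mul_self_sqrt hN0.le
  have hh0 : 0 < h := Real.sqrt_pos.2 hN0
  have hra : r ^ a = h := by
    rw [hr, ← Real.rpow_natCast, ← Real.rpow_mul hN0.le, hh, Real.sqrt_eq_rpow]
    congr 1
    field_simp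
  have hrh : r ≤ h := by
    rw [← hra]
    exact le_self_pow₀ hr1 (by omega)
  have hNr1 : 1 ≤ (N : ℝ) / r := by
    rw [le_div_iff₀ hr0, one_mul, ← hhh]
    nlinarith only [hrh, hr1]
  have hhr : h ≤ (N : ℝ) / r := by
    rw [le_div_iff₀ hr0, ← hhh]
    exact mul_le_mul_of_nonneg_left hrh hh0.le
  -- the finite set
  set T : Finset ℕ := (Finset.range N).filter (fun κ => x + κ ∈ S) with hT
  have hcard : Nat.card {κ : ℕ // κ < N ∧ x + κ ∈ S} = T.card := by
    have e1 : ∀ κ : ℕ, (κ < N ∧ x + κ ∈ S) ↔ κ ∈ T := fun κ => by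
      rw [hT, Finset.mem_filter, Finset.mem_range]
    rw [Nat.card_congr (Equiv.subtypeEquivRight e1), Nat.card_eq_fintype_card, Fintype.card_coe]
  rw [hcard]
  have htriv : (T.card : ℝ) ≤ N := by
    have h1 : T.card ≤ N := by
      have := Finset.card_filter_le (Finset.range N) (fun κ => x + (κ : ℂ) ∈ S)
      rwa [Finset.card_range] at this
    exact_mod_cast h1
  push_cast
  have hX10 : (0 : ℝ) ≤ X1 := by positivity
  by_cases hbig : X1 ≤ N ∧ 2 * (C : ℝ) ≤ r
  · obtain ⟨hb1, hb2⟩ := hbig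
    set L : ℕ := ⌊r / C⌋₊ with hL
    have hC0 : (0 : ℝ) < C := by linarith only [hCr]
    have hrC : 2 ≤ r / C := by
      rw [le_div_iff₀ hC0]
      exact hb2
    have hLa : (L : ℝ) ≤ r / C := Nat.floor_le (by positivity)
    have hLb : r / C < L + 1 := Nat.lt_floor_add_one _
    have hL2 : 2 ≤ L := Nat.le_floor (by exact_mod_cast hrC)
    obtain ⟨K, hK⟩ : ∃ K, L = K + 1 := ⟨L - 1, by omega⟩
    have hK1 : 1 ≤ K := by omega
    have hKr : (1 : ℝ) ≤ K := by exact_mod_cast hK1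
    have hLK : (L : ℝ) = K + 1 := by exact_mod_cast hK
    have hKlow : r ≤ 4 * C * K := by
      have e1 : r / C < 4 * K := by
        rw [hLK] at hLb
        linarith only [hLb, hKr]
      rw [div_lt_iff₀ hC0] at e1
      nlinarith only [e1]
    have hpow : ((C : ℝ) * (K + 1)) ^ α m A' ≤ h := by
      have e1 : (C : ℝ) * (K + 1) ≤ r := by
        rw [← hLK]
        rw [le_div_iff₀ hC0] at hLa
        linarith only [hLa]
      have e2 : (1 : ℝ) ≤ (C : ℝ) * (K + 1) := by nlinarith only [hCr, hKr]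
      calc ((C : ℝ) * (K + 1)) ^ α m A' ≤ r ^ α m A' := pow_le_pow_left₀ (by positivity) e1 _
        _ ≤ r ^ a := pow_le_pow_right₀ hr1 (by omega)
        _ = h := hra
    have hsplit : T.card = (T.filter (fun κ : ℕ => ‖x + κ‖ < h)).card +
        (T.filter (fun κ : ℕ => ¬ ‖x + κ‖ < h)).card :=
      (Finset.card_filter_add_card_filter_not _).symm
    have h1 := card_near x h hh0.le (T.filter (fun κ : ℕ => ‖x + κ‖ < h))
      (fun κ hκ => (Finset.mem_filter.1 hκ).2)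
    have hmem : ∀ κ ∈ T.filter (fun κ : ℕ => ¬ ‖x + κ‖ < h), κ < N ∧ x + κ ∈ S ∧ h ≤ ‖x + κ‖ := by
      intro κ hκ
      rw [Finset.mem_filter, hT, Finset.mem_filter, Finset.mem_range, not_lt] at hκ
      exact ⟨hκ.1.1, hκ.1.2, hκ.2⟩
    have h2 := card_blocks x S C K N (by omega) (T.filter (fun κ : ℕ => ¬ ‖x + κ‖ < h))
      (fun κ hκ => (hmem κ hκ).1) (fun κ hκ => (hmem κ hκ).2.1) (fun κ hκ => by
        obtain ⟨e1, e2, e3⟩ := hmem κ hκ
        refine hwin m A' K (x + κ) (shift_mem_Pts hx hb1 e1 ?_) (hpow.trans e3)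
        rw [← hhh, sq]
        exact mul_le_mul e3 e3 hh0.le (by positivity))
    have h3 : ((T.filter (fun κ : ℕ => ¬ ‖x + κ‖ < h)).card : ℝ) ≤ C * (N / K + 1) := by
      have e1 : ((T.filter (fun κ : ℕ => ¬ ‖x + κ‖ < h)).card : ℝ) ≤ C * (((N / K : ℕ) : ℝ) + 1) := by
        exact_mod_cast h2
      refine e1.trans ?_
      have e2 : ((N / K : ℕ) : ℝ) ≤ (N : ℝ) / K := Nat.cast_div_le
      gcongr
    have h4 : (N : ℝ) / K ≤ 4 * C * (N / r) := by
      rw [div_le_iff₀ (by linarith only [hKr])]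
      calc (N : ℝ) = N / r * r := by field_simp
        _ ≤ N / r * (4 * C * K) := mul_le_mul_of_nonneg_left hKlow (by linarith only [hNr1])
        _ = _ := by ring
    have h5 : (T.card : ℝ) ≤ (2 * h + 1) + C * (N / K + 1) := by
      rw [hsplit]
      push_cast
      linarith only [h1, h3]
    have h6 : (C : ℝ) * (N / K + 1) ≤ C * (4 * C * (N / r) + N / r) :=
      mul_le_mul_of_nonneg_left (by linarith only [h4, hNr1]) (by linarith only [hCr])
    have h7 : (0 : ℝ) ≤ (2 * C + X1) * (N / r) := by positivity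
    nlinarith only [h5, h6, h7, hhr, hNr1]
  · have hpos : (0 : ℝ) ≤ N / r := by positivity
    rcases not_and_or.1 hbig with hb | hb
    · have hb' : (N : ℝ) ≤ X1 := by
        have : N ≤ X1 := by omega
        exact_mod_cast this
      have e1 : (X1 : ℝ) ≤ X1 * (N / r) := by nlinarith only [hX10, hNr1]
      have e2 : (0 : ℝ) ≤ (3 + 4 * C * C + 3 * C) * (N / r) := by positivity
      nlinarith only [htriv, hb', e1, e2]
    · have e1 : (N : ℝ) ≤ 2 * C * (N / r) := by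
        calc (N : ℝ) = r * (N / r) := by field_simp
          _ ≤ 2 * C * (N / r) := mul_le_mul_of_nonneg_right (not_le.1 hb).le hpos
      have e2 : (0 : ℝ) ≤ (3 + 4 * C * C + C + X1) * (N / r) := by positivity
      nlinarith only [htriv, e1, e2]

end Pool.Agent.HUK.H37
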